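import Mathlib
import Pool.Agent.H10.HtE

namespace Pool.Agent.Results.MP_6dcedf_co.Counter
open Pool.Agent.H10.Ht Filter

theorem result (C : ℝ) : ∃ (V : Type) (_ : Fintype V) (G : SimpleGraph V),
    2 ≤ Fintype.card V ∧ G.Connected ∧ C * √(lam2 G) < phiHalf G := by
  obtain ⟨n0, hn0⟩ := ((Real.tendsto_sum_range_one_div_nat_succ_atTop.eventually_gt_atTop
    ((82944 * |C|) ^ 2)).and (eventually_gt_atTop 0)).exists
  obtain ⟨h1, hn⟩ := hn0
  change _ < hh n0 at h1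
  haveI : NeZero ((8 * n0) ^ 3) := ⟨by positivity⟩
  obtain ⟨h2, h3⟩ := both n0 ((8 * n0) ^ 3) hn le_rfl
  refine ⟨_, inferInstance, GG (8 * n0) ((8 * n0) ^ 3), ?_, GG_conn (by omega) le_rfl, ?_⟩
  · simp only [Fintype.card_prod, Fintype.card_fin]
    nlinarith [Nat.one_le_pow 3 (8 * n0) (by omega)]
  · have hn' : (0 : ℝ) < n0 := by exact_mod_cast hn
    have h0 := hh_nonneg n0
    have h4 : √(lam2 (GG (8 * n0) ((8 * n0) ^ 3))) ≤ 12 * √(hh n0) / n0 := by
      rw [Real.sqrt_le_left (by positivity)]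
      refine h3.trans ?_
      rw [div_pow, mul_pow, Real.sq_sqrt h0]
      gcongr; norm_num
    have h5 : 82944 * |C| < √(hh n0) := Real.lt_sqrt_of_sq_lt h1
    have h6 : 0 < √(hh n0) := lt_of_le_of_lt (by positivity) h5
    have h7 := Real.mul_self_sqrt h0
    calc C * √(lam2 (GG (8 * n0) ((8 * n0) ^ 3))) ≤ |C| * (12 * √(hh n0) / n0) :=
          mul_le_mul (le_abs_self C) h4 (Real.sqrt_nonneg _) (abs_nonneg C)
      _ = (82944 * |C|) * √(hh n0) / n0 / 6912 := by ring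
      _ < √(hh n0) * √(hh n0) / n0 / 6912 := by gcongr
      _ ≤ _ := by rw [h7]; exact h2

end Pool.Agent.Results.MP_6dcedf_co.Counter
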